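import Pool.Agent.H37.CND.Stmts

/-!
# Board `cnd`, row PTC: the groups of order 8
-/

set_option autoImplicit false

namespace Pool.CND

open Finset

/-- a Klein four group in the dihedral group of order 8 -/
def klein : Subgroup (DihedralGroup 4) where
  carrier := {x | x = .r 0 ∨ x = .r 2 ∨ x = .sr 0 ∨ x = .sr 2}
  mul_mem' := by
    intro a b ha hb
    simp only [Set.mem_ofPred_eq] at *
    revert a b
    decide
  one_mem' := by
    simp only [Set.mem_ofPred_eq]
    decide
  inv_mem' := by
    intro a ha
    simp only [Set.mem_ofPred_eq] at *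
    revert a
    decide

theorem mem_klein (x : DihedralGroup 4) :
    x ∈ klein ↔ (x = .r 0 ∨ x = .r 2 ∨ x = .sr 0 ∨ x = .sr 2) := Iff.rfl

theorem card_klein : Nat.card klein = 4 := by
  have e : klein ≃ {x : DihedralGroup 4 // x = .r 0 ∨ x = .r 2 ∨ x = .sr 0 ∨ x = .sr 2} :=
    Equiv.subtypeEquivRight mem_klein
  rw [Nat.card_congr e, Nat.card_eq_fintype_card]
  decide

theorem ea_klein : EA 2 klein := by
  constructor
  · intro a ha
    rw [mem_klein] at ha
    revert a
    decide
  · intro a ha b hb
    rw [mem_klein] at ha hb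
    revert a b
    decide

theorem ptc_thm (h1 : S_PTA) (h2 : S_QIS) (h3 : S_CNG) (h4 : S_NGE) : S_PTC := by
  intro k _ _ _
  constructor
  · have h5 := h1 2 k (DihedralGroup 4) klein 1 1 Nat.prime_two inferInstance ea_klein (by decide)
      (by rw [card_klein, DihedralGroup.nat_card]; norm_num)
    have h6 := h5.2 rfl (le_refl 1)
    simpa using h6
  · have : Fact (Nat.Prime 2) := ⟨Nat.prime_two⟩
    rw [h3 k (QuaternionGroup 2) (EG k 2 1) (h2 k), h4 2 k 1 (le_refl 1)]
    norm_num

end Pool.CND
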